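import Pool.Agent.TH766.IQ.Open

/-!
# Logarithmic Kodaira dimension `-∞` and `A¹`-uniruledness for iterated quotients

The class `IsTower1` of projective varieties over `ℂ` (given by their function fields) is the smallest
class which contains the point, the irreducible components of the projective varieties given by nested
sums of high powers of linear forms or of monomials, and the abelian covers of products of projective
spaces over arbitrary arrangements of hyperplanes with multiplicities at least `n i + 2`, and which
contains with `Y` all quotients `(Y × ∏ C j) / G`, for curves `C j` and finite groups `G` acting on the
product and permuting the curves, such that `MixedNonneg` holds, for instance such that the fixed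
locus of each `g ≠ 1` on the product of the curves is empty or of codimension at least `6`. The
operation can be iterated: `G` acts on the product, but neither on the varieties nor on the covers
from which `Y` is constructed.

Let `Y` be a member of this class, `C j` curves, `G` a finite group acting on the product of `Y` and
the `C j` which permutes the curves, such that `LogMixedNonneg` holds (for instance, such that the
fixed loci on the product of the curves are as above), and let `D` be the boundary of the quotient
over finitely many points of the quotients of the curves. Then the following are equivalent
(`result`): the complement of `D` is `A¹`-uniruled; its logarithmic Kodaira dimension is `-∞`;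
`K + D` is not pseudo-effective (on a resolution); `Y` is uniruled or one of the open curves is the
projective line or the affine line.

The result combines the theorems on the basic classes (`Pool.Agent.TH710.ND`, helper710, and
`Pool.Agent.TH756.PN`, helper756) with the one on quotients of products of a variety and curves in the
starting repository (`Pool.Agent.W619`), where the result is assumed for the variety.
The converse is new: `K + D` is not pseudo-effective for any `A¹`-uniruled variety
(`Pool.Agent.TH766.CP.A1`).
-/

set_option autoImplicit false
set_option linter.overlappingInstances false

open FF IntermediateField Pool.Agent.W619.PQ Pool.Agent.W619.PL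
open Pool.Agent.W619.TW Pool.Agent.W619.X Pool.Agent.W619.Y Pool.Agent.TH766.IQ

namespace Pool.Agent.Results.MP_410da7_ag.IteratedOpenQuotients

/-- **Open iterated quotients.** Let `Y` be a member of the class of iterated quotients, with function
field `M`, dimension `d` and statement `u` (`u` holds if and only if `Y` is uniruled: the last
statement of this theorem), `F j` (`j < s`) the function fields of curves `C j`, `L` the function field
of the product `Z` of `Y` and the curves, `G` a finite group of automorphisms of `L` which permutes
the curves through `σ` (`IsProductAction`), `B j` a finite set of points of the quotient of `C j` by its
stabilizer, such that the `B j` are permuted by `G`. The boundary of `Z / G` consists of the places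
over a point of some `B j`. Assume `LogMixedNonneg`, for instance that the fixed locus of each `g ≠ 1`
in `G` on the product of the curves is empty or of codimension at least `6`. Then the following are
equivalent: `Z / G` minus the boundary is `A¹`-uniruled; its logarithmic Kodaira dimension is `-∞`;
the logarithmic canonical divisor is not pseudo-effective; `u` holds, or `C j` minus the preimage of
`B j` is the projective line or the affine line for some `j`. -/
theorem result (d s : ℕ) (u : Prop) (L : Type) [Field L] [Algebra ℂ L]
    (M : IntermediateField ℂ L) (hM : IsTower1 M d u) (F : Fin s → IntermediateField ℂ L)
    (G : Subgroup (L ≃ₐ[ℂ] L)) [Finite G] (σ : G →* Equiv.Perm (Fin s))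
    (hG : IsProductAction d s M F G σ)
    (B : ∀ j, Set (Place ℂ ↥(F j ⊓ fixedField (stb G σ j)))) (hB : ∀ j, (B j).Finite)
    (hinv : BdInv G σ F B) (h : LogMixedNonneg G σ F B) :
    [IsA1Uniruled ℂ (fixedField G) (d + s) (BdQ G σ F B),
      LogKodairaNeg ℂ (fixedField G) (d + s) (BdQ G σ F B),
      ¬ IsPsef ℂ (fixedField G) (d + s) (BdQ G σ F B),
      u ∨ ∃ j, IsNegative (inf_le_left : F j ⊓ fixedField (stb G σ j) ≤ F j) (B j)].TFAE ∧
    (u ↔ IsUniruled ℂ M d) :=
  open1 M hM F G σ hG B hB hinv h

end Pool.Agent.Results.MP_410da7_ag.IteratedOpenQuotients
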