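import Pool.Agent.TH766.MC.Main

/-!
# Logarithmic Kodaira dimension `-∞` and `A¹`-uniruledness for open covers of arrangements

Let `ℓ i = 0` be `q` hyperplanes in projective `n`-space, an arbitrary arrangement (any number of
hyperplanes, in any position, reducible or not), `X` an abelian cover of projective space which is
branched along the arrangement (`Cover`: equations `y k ^ m k = ∏ (ℓ i) ^ e k i` in a weighted
projective space), and `U` an arbitrary set of the hyperplanes. The open variety is the complement

  `X° = X \ ⋃ {ℓ i = 0, i ∈ U}`.

The multiplicative group is assumed to act freely on the coordinates of the points of `X°` (`FreeU`),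
and the multiplicities of the cover over the remaining hyperplanes are at least `R = n + 3 - c`
(`MultU`), where `c` is the number of irreducible components of the arrangement (`Splits`); if
`c = 1` and there are at least `n + 3` different hyperplanes, `R = n + 1` is sufficient. These
bounds do not depend on `q`.

Then the following are equivalent (`result`):

* `X°` is `A¹`-uniruled;
* the logarithmic Kodaira dimension of `X°` is `-∞`;
* the logarithmic canonical bundle of `X°` is not pseudo-effective;
* `FreePart`: the arrangement is a join of two arrangements (one of them may be empty) such that all
  hyperplanes of `U` come from the second one.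

`X°` may be singular; the logarithmic Kodaira dimension is that of a resolution of `X°`, as the
sections are required to be regular at all the divisorial places with centre on `X°`.

The positive part uses a new theorem on the bases of a (not necessarily connected) representable
matroid (`Pool.Agent.TH766.MC`: `Comb`, `Exch`, `Ex2`, `Wts`) in the method of helper152
(`Pool.Agent.TH152.AC`).
-/

set_option autoImplicit false

open FF Pool.Agent.W602.Cov Pool.Agent.W602.Cov.Cover Pool.Agent.W602.GT Pool.Agent.TH766.MC

namespace Pool.Agent.Results.MP_410da7_ag.OpenArrangementCovers

/-- **Open covers of arrangements.** Let `X` be an abelian cover of projective `n`-space branched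
along an arrangement with exactly `c` irreducible components, `U` any set of the hyperplanes, and
let the multiplicities of the cover over the complement of the hyperplanes in `U` be at least
`R = n + 3 - c`, or at least `R = n + 1` if `c = 1` and there are `n + 3` different hyperplanes. Then
for the open variety `X \ ⋃ {ℓ i = 0, i ∈ U}` (with function field `K`; the places in
`OffD X.ℓ U x` are those without centre on it) the following are equivalent: it is
`A¹`-uniruled; its logarithmic Kodaira dimension is `-∞`; its logarithmic canonical bundle is not
pseudo-effective; the arrangement has a free part. -/
theorem result (n q r : ℕ) (hn : 1 ≤ n) (X : Cover n q r) (U : Finset (Fin q)) (hF : X.FreeU U)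
    (c R : ℕ) (hc : Splits X.ℓ c) (hc' : ¬ Splits X.ℓ (c + 1))
    (hR : R + c = n + 3 ∨ (c = 1 ∧ Many X.ℓ ∧ R = n + 1)) (hm : MultU X U R)
    (K : Type) [Field K] [Algebra ℂ K] (x : Fin (n + 1) → K) (y : Fin r → K)
    (hK : X.FunctionField K x y) :
    [Pool.Agent.W619.PL.IsA1Uniruled ℂ K n (OffD X.ℓ U x), ¬ KodGe ℂ K n (OffD X.ℓ U x) 0,
      ¬ Psef ℂ K n (OffD X.ℓ U x), FreePart X.ℓ U].TFAE :=
  tfae hn X hF hK hc hc' hR hm

end Pool.Agent.Results.MP_410da7_ag.OpenArrangementCovers
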